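import Pool.Agent.V5helper90.KD.StmX
import Pool.Agent.H914R2.ExtOp
import Pool.Agent.Y121.AH.Fix

/-!
# Project KH, job KZB: a Hodge class for `K` gives one for `Y × K`
-/

set_option autoImplicit false
set_option linter.unusedSectionVars false

open CategoryTheory AlgebraicGeometry TensorProduct

universe u

namespace Pool.Agent.V5helper3.KD

open Module
open Pool.Agent.H914 Pool.Agent.H914.VarClass Pool.Agent.H914.VarClass.Obj
  Pool.Agent.H914.WeilCohomology
open Pool.Agent.Y133.Half Pool.Agent.Y121.AH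
open Pool.Agent.V5helper90.KD

/-- Base change for an arbitrary morphism. -/
lemma base_change' {k : Type u} [Field k] {𝒱 : VarClass k} {ops : CycleOps 𝒱}
    (W : WeilCohomology.{u, 0} ops) {X Y Z : 𝒱.Obj} (g : Y ⟶ Z) (c : W.H (X.prod Z)) :
    W.map g (W.push (snd X Z) c) =
      W.push (snd X Y) (W.map (Obj.lift (fst X Y) (snd X Y ≫ g)) c) := by
  refine W.kunneth_induction (p := fun c => W.map g (W.push (snd X Z) c) =
    W.push (snd X Y) (W.map (Obj.lift (fst X Y) (snd X Y ≫ g)) c)) ?_ ?_ c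
  · intro a b ha hb
    simp only [map_add, ha, hb]
  · intro i j a _ b _
    have e1 : Obj.lift (fst X Y) (snd X Y ≫ g) ≫ fst X Z = fst X Y := Obj.lift_fst _ _
    have e2 : Obj.lift (fst X Y) (snd X Y ≫ g) ≫ snd X Z = snd X Y ≫ g := Obj.lift_snd _ _
    rw [push_snd, map_smul, map_mul (W.map (Obj.lift (fst X Y) (snd X Y ≫ g))), ← W.map_comp,
      ← W.map_comp, e1, e2, W.map_comp, push_snd]

/-- The value of the correspondence on a class of even degree is of even degree. -/
lemma corr_even {k : Type u} [Field k] {𝒱 : VarClass k} {ops : CycleOps 𝒱}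
    (W : WeilCohomology.{u, 0} ops) {X Z : 𝒱.Obj} {i j : ℕ} {c : W.H (X.prod Z)}
    (hc : c ∈ W.gr (X.prod Z) (2 * i)) {v : W.H X} (hv : v ∈ W.gr X (2 * j)) :
    ∃ p, W.corr c v ∈ W.gr Z (2 * p) := by
  have h := W.push_mem (snd X Z) (W.mul_mem hc (W.map_mem (fst X Z) hv))
  have hd : (X.prod Z).dim = X.dim + Z.dim := dim_prod X Z
  rw [corr_apply]
  rcases le_or_gt X.dim (i + j) with h1 | h1
  · refine ⟨i + j - X.dim, ?_⟩
    have e : ((2 * i + 2 * j : ℕ) : ℤ) + 2 * ((Z.dim : ℤ) - (X.prod Z).dim) =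
        ((2 * (i + j - X.dim) : ℕ) : ℤ) := by
      rw [hd]
      push_cast [Nat.cast_sub h1]
      ring
    rw [e, grZ_natCast] at h
    exact h
  · refine ⟨0, ?_⟩
    rw [grZ_of_neg (by rw [hd]; push_cast; omega)] at h
    rw [(Submodule.mem_bot _).1 h]
    exact Submodule.zero_mem _

theorem t_KZB : S_KZB.{u} := by
  intro k _ 𝒱 ops T X Y K c hc
  by_cases hn : Nontrivial (T.W.H Y)
  · obtain ⟨a, ha, ha1⟩ := exists_tr_hodge T Y
    obtain ⟨A, hA⟩ : ∃ A : T.W.H ((Y.prod K).prod (Y.prod K)),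
      A = T.W.map (q1 Y K) (T.W.map (fst Y Y) a) := ⟨_, rfl⟩
    have hAH : IsHodge T ((Y.prod K).prod (Y.prod K)) Y.dim A := by
      rw [hA]
      exact (ha.map _).map _
    obtain ⟨f, hf⟩ : ∃ f : X.prod ((Y.prod K).prod (Y.prod K)) ⟶ X.prod (K.prod K),
      f = Obj.lift (fst X ((Y.prod K).prod (Y.prod K)))
        (snd X ((Y.prod K).prod (Y.prod K)) ≫ q2 Y K) := ⟨_, rfl⟩
    have hfst : f ≫ fst X (K.prod K) = fst X ((Y.prod K).prod (Y.prod K)) := by
      rw [hf]
      exact Obj.lift_fst _ _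
    refine ⟨T.W.map f c * T.W.map (snd X ((Y.prod K).prod (Y.prod K))) A, ?_, ?_⟩
    · have h1 := (hc.map f).mul (hAH.map (snd X ((Y.prod K).prod (Y.prod K))))
      have h2 : (K.dim + 1) + Y.dim = (Y.prod K).dim + 1 := by
        rw [dim_prod]
        omega
      rwa [h2] at h1
    · intro v hv x _
      have h1 : T.W.corr (T.W.map f c * T.W.map (snd X ((Y.prod K).prod (Y.prod K))) A) v =
          A * T.W.map (q2 Y K) (T.W.corr c v) := by
        rw [corr_apply, corr_apply, base_change' T.W (q2 Y K), ← hf, T.W.mul_push _ hAH.1,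
          map_mul (T.W.map f), ← T.W.map_comp f, hfst, ← mul_assoc,
          T.W.even_comm (T.W.map_mem (snd X ((Y.prod K).prod (Y.prod K))) hAH.1) (T.W.map f c)]
      obtain ⟨p, hp⟩ := corr_even T.W hc.1 (j := 1) hv
      have h2 : T.W.map (snd Y K) x = T.W.map (fst Y K) 1 * T.W.map (snd Y K) x := by
        rw [map_one, one_mul]
      have h3 : T.W.corr (T.W.map (fst Y Y) a) 1 = 1 := by
        rw [corr_apply, map_one, mul_one, push_snd', ha1, one_smul]
      rw [h1, h2, hA, corr_ext _ hp, h3, map_one, one_mul]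
  · refine ⟨0, IsHodge.zero, fun v _ x _ => ?_⟩
    have h0 : (1 : T.W.H Y) = 0 := by
      by_contra h
      exact hn ⟨1, 0, h⟩
    have h1 : (1 : T.W.H (Y.prod K)) = 0 := by
      rw [← map_one (T.W.map (fst Y K)), h0, map_zero]
    have h2 : ∀ z : T.W.H (Y.prod K), z = 0 := fun z => by rw [← mul_one z, h1, mul_zero]
    rw [h2 (T.W.corr _ _), h2 (T.W.map _ _)]

end Pool.Agent.V5helper3.KD
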